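import Pool.Agent.H31.FQ.CRV

/-!
# MP_70ba79_ag, board `fq_modules`: ALB (poles of algebraic functions of `X`, `Y`)
-/

set_option autoImplicit false

namespace Pool.Agent.H31.FQ

open SC Pool.Agent.H27.LV Pool.Agent.H30.FQ

section

variable {k K : Type} [Field k] [Field K] [Algebra k K]

lemma ge_pow {v : DV k K} {t : ℤ} {x : K} (hx : ge v t x) (n : ℕ) : ge v (n * t) (x ^ n) := by
  induction n with
  | zero =>
    have := ge_one (k := k) (K := K) v
    simpa using this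
  | succ n ih =>
    rw [pow_succ]
    exact (ih.mul hx).mono (by push_cast; linarith)

lemma ge_aeval (v : DV k K) (X Y : K) {d : ℕ} (c : MvPolynomial (Fin 2) k)
    (hc : c.totalDegree ≤ d) :
    ge v (-(d * (poleOrder v ![X, Y] : ℤ))) (MvPolynomial.aeval ![X, Y] c) := by
  have hw : poleOrder v ![X, Y] = max (-(v.ord X)).toNat (-(v.ord Y)).toNat := po2 v X Y
  obtain ⟨w, hw'⟩ : ∃ w : ℕ, w = poleOrder v ![X, Y] := ⟨_, rfl⟩
  rw [← hw'] at hw ⊢
  have gX : ge v (-(w : ℤ)) X := Or.inr (by omega)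
  have gY : ge v (-(w : ℤ)) Y := Or.inr (by omega)
  rw [MvPolynomial.aeval_def, MvPolynomial.eval₂_eq']
  refine ge_sum v _ _ _ fun m hm => ?_
  have h1 := MvPolynomial.le_totalDegree hm
  have h2 : m 0 + m 1 ≤ d := by
    refine le_trans ?_ (h1.trans hc)
    rw [Finsupp.sum_fintype _ _ (fun _ => rfl), Fin.sum_univ_two]
  rw [Fin.prod_univ_two]
  have h3 := (ge_const v (MvPolynomial.coeff m c)).mul ((ge_pow gX (m 0)).mul (ge_pow gY (m 1)))
  refine h3.mono ?_
  have h4 : ((m 0 : ℕ) : ℤ) + (m 1 : ℕ) ≤ d := by exact_mod_cast h2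
  have h5 : (0 : ℤ) ≤ w := by positivity
  nlinarith

end

theorem alb : T_ALB := by
  intro k K _ _ _ _ _ _ htr d p X Y z hd hl hz
  classical
  obtain ⟨n, hn⟩ : ∃ n, n = p.natDegree := ⟨_, rfl⟩
  obtain ⟨φ, hφ⟩ : ∃ φ : MvPolynomial (Fin 2) k →ₐ[k] K, φ = MvPolynomial.aeval ![X, Y] :=
    ⟨_, rfl⟩
  obtain ⟨L, hL⟩ : ∃ L : K, L = φ p.leadingCoeff := ⟨_, rfl⟩
  have hL0 : L ≠ 0 := by
    rw [hL, hφ]
    exact hl
  have hsum : L * z ^ n = -∑ i ∈ Finset.range n, φ (p.coeff i) * z ^ i := by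
    rw [Polynomial.eval_map, Polynomial.eval₂_eq_sum_range, ← hφ, ← hn,
      Finset.sum_range_succ] at hz
    have h1 : φ.toRingHom (p.coeff n) = L := by
      rw [hL, hn]
      rfl
    rw [h1] at hz
    have h2 : ∑ i ∈ Finset.range n, φ (p.coeff i) * z ^ i =
      ∑ i ∈ Finset.range n, φ.toRingHom (p.coeff i) * z ^ i := rfl
    rw [h2]
    linear_combination hz
  have hc : ∀ (v : DV k K) (i : ℕ), ge v (-(d * (poleOrder v ![X, Y] : ℤ))) (φ (p.coeff i)) := by
    intro v i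
    rw [hφ]
    exact ge_aeval v X Y _ (hd i)
  have hcL : ∀ v : DV k K, -(d * (poleOrder v ![X, Y] : ℤ)) ≤ v.ord L := by
    intro v
    have h1 := hc v n
    rw [hn] at h1
    exact (h1.resolve_left (by rw [hL] at hL0; exact hL0)).trans (by rw [hL]; rfl)
  have hpt : ∀ v : DV k K, max 0 (-(v.ord z)) ≤ v.ord L + d * (poleOrder v ![X, Y] : ℤ) := by
    intro v
    refine max_le (by have := hcL v; linarith) ?_
    by_cases hneg : 0 ≤ v.ord z
    · have := hcL v
      linarith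
    push Not at hneg
    have hz0 : z ≠ 0 := by
      rintro rfl
      rw [v.ord_zero] at hneg
      omega
    have hn1 : n ≠ 0 := by
      intro h0
      rw [h0] at hsum
      simp at hsum
      exact hL0 hsum
    have h1 : ge v (-(d * (poleOrder v ![X, Y] : ℤ)) + ((n : ℤ) - 1) * v.ord z) (L * z ^ n) := by
      rw [hsum]
      apply ge.neg
      refine ge_sum v _ _ _ fun i hi => ?_
      refine ((hc v i).mul (ge_pow (ge_of_ord v (x := z)) i)).mono ?_
      have h2 : (i : ℤ) ≤ n - 1 := by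
        have := Finset.mem_range.1 hi
        omega
      nlinarith
    have h2 := h1.resolve_left (mul_ne_zero hL0 (pow_ne_zero _ hz0))
    rw [v.ord_mul' hL0 (pow_ne_zero _ hz0), v.ord_pow] at h2
    linarith
  have hQ := pfm k K htr L
  have hZ := pfm k K htr z
  have hP := pfi k K htr (Fin 2) ![X, Y]
  obtain ⟨T, hT⟩ : ∃ T : Finset (DV k K), T = hQ.1.toFinset ∪ hZ.1.toFinset ∪ hP.toFinset :=
    ⟨_, rfl⟩
  have m1 : ∀ v : DV k K, max 0 (-(v.ord z)) ≠ 0 → v ∈ T := by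
    intro v hv
    have : v.ord z ≠ 0 := by
      intro h0
      rw [h0] at hv
      simp at hv
    rw [hT]
    simp [this]
  have m2 : ∀ v : DV k K, v.ord L ≠ 0 → v ∈ T := by
    intro v hv
    rw [hT]
    simp [hv]
  have m3 : ∀ v : DV k K, poleOrder v ![X, Y] ≠ 0 → v ∈ T := by
    intro v hv
    rw [hT]
    simp [hv]
  have e1 : ∑ v ∈ T, v.ord L = 0 := by
    rw [← hQ.2, fsum_eq m2]
  have e3 := Finset.sum_le_sum (s := T) fun v _ => hpt v
  rw [Finset.sum_add_distrib, e1, zero_add, ← Finset.mul_sum] at e3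
  unfold hh
  rw [fsum_eq m1, deg_eq m3]
  exact e3

end Pool.Agent.H31.FQ
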