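import Pool.Agent.H31.FQ.FIN
import Pool.Agent.H30.FQ.Targets2

/-!
# MP_70ba79_ag, board `fq_modules`: CRV (complement of `x ^ m + y ^ n = 1`)
-/

set_option autoImplicit false

namespace Pool.Agent.H31.FQ

open SC Pool.Agent.H27.LV Pool.Agent.H30.FQ

lemma po2 {k K : Type} [Field k] [Field K] [Algebra k K] (v : DV k K) (a b : K) :
    poleOrder v ![a, b] = max (-(v.ord a)).toNat (-(v.ord b)).toNat := by
  unfold poleOrder
  rw [Fin.univ_succ, Finset.sup_cons]
  simp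

lemma pow_const {k K : Type} [Field k] [IsAlgClosed k] [Field K] [Algebra k K] {x : K} {m : ℕ}
    (hm : 0 < m) (h : x ^ m ∈ Set.range (algebraMap k K)) : x ∈ Set.range (algebraMap k K) := by
  obtain ⟨c, hc⟩ := h
  have hint : IsIntegral k x := by
    apply IsIntegral.of_pow hm
    rw [← hc]
    exact isIntegral_algebraMap
  have h1 : (minpoly k x).degree = 1 := IsAlgClosed.degree_eq_one_of_irreducible k
    (minpoly.irreducible hint)
  obtain ⟨d, hd⟩ := minpoly.mem_range_of_degree_eq_one k x h1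
  exact ⟨d, hd⟩

lemma toNat_pow {m : ℕ} (hm : 4 ≤ m) (t : ℤ) : 4 * (-t).toNat ≤ (-((m : ℤ) * t)).toNat := by
  rcases le_or_gt 0 t with h | h
  · have : (-t).toNat = 0 := by omega
    rw [this]
    omega
  · have h4 : (4 : ℤ) ≤ m := by exact_mod_cast hm
    have h1 : 4 * (-t) ≤ -((m : ℤ) * t) := by nlinarith
    omega

theorem crv (hMAIN : T_MAIN) : T_CRV := by
  intro k K _ _ _ _ _ _ htr S m n x y hm hn hreg hx hy h1 hu hnc hX1 hY1 hXY hW1 hW0 D hD
  classical
  have hpw : ∀ (v : DV k K) (z : K) (j : ℕ), 4 ≤ j → 0 ≤ v.ord z →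
      v.ord (z ^ j) = 0 ∨ 4 ≤ v.ord (z ^ j) := by
    intro v z j hj hz
    rw [v.ord_pow]
    rcases hz.eq_or_lt with h | h
    · left
      rw [← h, mul_zero]
    · right
      have h4 : (4 : ℤ) ≤ j := by exact_mod_cast hj
      nlinarith
  have key := hMAIN k K htr S (x ^ m) (y ^ n) ⟨pow_ne_zero _ hx, pow_ne_zero _ hy,
    sub_ne_zero.2 h1, hu, fun v hv => hpw v x m hm (hreg v hv).1,
    fun v hv => hpw v y n hn (hreg v hv).2⟩
    (fun h => hnc ⟨pow_const (by omega) h.1, pow_const (by omega) h.2⟩) hX1 hY1 hXY hW1 hW0 D hD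
  refine le_trans ?_ key
  have hP1 := pfi k K htr (Fin 2) ![x, y]
  have hP2 := pfi k K htr (Fin 2) ![x ^ m, y ^ n]
  have m1 : ∀ v : DV k K, poleOrder v ![x, y] ≠ 0 → v ∈ hP1.toFinset ∪ hP2.toFinset := by
    intro v hv
    simp [hv]
  have m2 : ∀ v : DV k K, poleOrder v ![x ^ m, y ^ n] ≠ 0 → v ∈ hP1.toFinset ∪ hP2.toFinset := by
    intro v hv
    simp [hv]
  rw [deg_eq m1, deg_eq m2, Finset.mul_sum]
  refine Finset.sum_le_sum fun v _ => ?_
  rw [po2, po2, v.ord_pow, v.ord_pow]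
  have h3 := toNat_pow hm (v.ord x)
  have h4 := toNat_pow hn (v.ord y)
  have h5 : 4 * max (-(v.ord x)).toNat (-(v.ord y)).toNat ≤
      max (-((m : ℤ) * v.ord x)).toNat (-((n : ℤ) * v.ord y)).toNat := by
    omega
  exact_mod_cast h5

end Pool.Agent.H31.FQ
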