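import Pool.Agent.H30.FQ.Basic

/-!
# MP_70ba79_ag, board `fq_modules`: FIN (final inequality)
-/

set_option autoImplicit false

namespace Pool.Agent.H31.FQ

open SC Pool.Agent.H27.LV Pool.Agent.H30.FQ

lemma fsum_eq {α : Type*} {T : Finset α} {f : α → ℤ} (h : ∀ v, f v ≠ 0 → v ∈ T) :
    ∑ᶠ v, f v = ∑ v ∈ T, f v :=
  finsum_eq_sum_of_support_subset f (fun v hv => h v hv)

lemma deg_eq {k K : Type} [Field k] [Field K] [Algebra k K] {ι : Type} [Fintype ι] {z : ι → K}
    {T : Finset (DV k K)} (h : ∀ v : DV k K, poleOrder v z ≠ 0 → v ∈ T) :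
    (deg k z : ℤ) = ∑ v ∈ T, (poleOrder v z : ℤ) := by
  unfold deg
  rw [finsum_eq_sum_of_support_subset (s := T) (fun v : DV k K => poleOrder v z)
    (fun v hv => h v hv)]
  push_cast
  rfl

theorem fin (hFIL : T_FIL) (hQSM : T_QSM) (hHHI : T_HHI) : T_FIN := by
  intro k K _ _ _ _ _ _ htr S D X Y hD hc hcf hDu hg h
  classical
  obtain ⟨_, _, h3⟩ := hHHI k K htr
  have hpt : ∀ v : DV k K, 2 * (poleOrder v ![X, Y] : ℤ) ≤
      6 * cc S D v + v.ord (QQ D X Y) - (if v ∈ S then v.ord X + v.ord Y else 0) := by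
    intro v
    by_cases hv : v ∈ S
    · rw [if_pos hv]
      have := hFIL k K v D (cc S D v) X Y (loc_in htr hD hc hDu hg h hv)
      linarith
    · rw [if_neg hv]
      have h1 := hQSM k K v D 0 (cc S D v) X Y (loc_out htr hD hc hDu hg h hv)
      have hx : 0 ≤ v.ord X := by
        rcases h.ox v hv with h' | h' <;> omega
      have hy : 0 ≤ v.ord Y := by
        rcases h.oy v hv with h' | h' <;> omega
      have h2 : poleOrder v ![X, Y] = 0 := by
        unfold poleOrder
        rw [← Nat.le_zero]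
        refine Finset.sup_le fun i _ => ?_
        fin_cases i
        · simp only [Fin.zero_eta, Matrix.cons_val_zero]
          omega
        · simp only [Fin.mk_one, Matrix.cons_val_one, Matrix.cons_val_zero]
          omega
      rw [h2]
      push_cast
      linarith
  have hQ := pfm k K htr (QQ D X Y)
  have hP := pfi k K htr (Fin 2) ![X, Y]
  obtain ⟨T, hT⟩ : ∃ T : Finset (DV k K), T = hcf.toFinset ∪ hQ.1.toFinset ∪ hP.toFinset ∪ S :=
    ⟨_, rfl⟩
  have m1 : ∀ v : DV k K, cc S D v ≠ 0 → v ∈ T := by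
    intro v hv
    rw [hT]
    simp [hv]
  have m2 : ∀ v : DV k K, v.ord (QQ D X Y) ≠ 0 → v ∈ T := by
    intro v hv
    rw [hT]
    simp [hv]
  have m3 : ∀ v : DV k K, poleOrder v ![X, Y] ≠ 0 → v ∈ T := by
    intro v hv
    rw [hT]
    simp [hv]
  have m4 : S ⊆ T := by
    intro v hv
    rw [hT]
    simp [hv]
  rw [deg_eq m3, fsum_eq m1, (h3 S X).1, (h3 S Y).1]
  have e1 : ∑ v ∈ T, v.ord (QQ D X Y) = 0 := by
    rw [← hQ.2, fsum_eq m2]
  have e2 : ∑ v ∈ T, (if v ∈ S then v.ord X + v.ord Y else 0) =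
      ∑ v ∈ S, v.ord X + ∑ v ∈ S, v.ord Y := by
    rw [← Finset.sum_filter, Finset.filter_mem_eq_inter, Finset.inter_eq_right.2 m4,
      Finset.sum_add_distrib]
  have e3 := Finset.sum_le_sum (s := T) fun v _ => hpt v
  rw [Finset.sum_sub_distrib, Finset.sum_add_distrib, e1, e2, ← Finset.mul_sum,
    ← Finset.mul_sum] at e3
  linarith

end Pool.Agent.H31.FQ
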